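import Pool.Agent.Q296.Seq.Defs

/-!
# The asynchronous `ℓ^p`-energy minimization dynamics
-/

namespace Q296.Lp

open scoped ENNReal

variable {n : ℕ}

open scoped Classical in
/-- `Ψ(y) = ∑_{w ∼ v} |y - f(w)|^p`. -/
noncomputable def energy (G : SimpleGraph (Fin n)) (p : ℝ) (f : Fin n → ℝ) (v : Fin n) (y : ℝ) :
    ℝ :=
  ∑ w, if G.Adj v w then |y - f w| ^ p else 0

/-- A point at which the function `Ψ : ℝ → ℝ` attains its smallest value. -/
noncomputable def argmin (Ψ : ℝ → ℝ) : ℝ := Classical.epsilon fun y => ∀ z, Ψ y ≤ Ψ z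

/-- One update at the vertex `v`: the value at `v` is replaced by the minimizer of `Ψ`. -/
noncomputable def upd (G : SimpleGraph (Fin n)) (p : ℝ) (f : Fin n → ℝ) (v : Fin n) :
    Fin n → ℝ :=
  Function.update f v (argmin (energy G p f v))

/-- The oscillation `max f - min f`. -/
noncomputable def osc (f : Fin n → ℝ) : ℝ := (⨆ v, f v) - ⨅ v, f v

/-- The expectation of the `ε`-consensus time `τ_p(ε) = min {t ≥ 0 : osc f_t ≤ ε}` of the dynamics
on `G` started from `f₀`, the updated vertices being i.i.d. uniform. -/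
noncomputable def meanConsensus [NeZero n] (G : SimpleGraph (Fin n)) (p : ℝ) (f₀ : Fin n → ℝ)
    (ε : ℝ) : ℝ≥0∞ :=
  Seq.meanHit (PMF.uniformOfFintype (Fin n)).toMeasure (upd G p) {f | osc f ≤ ε} f₀

end Q296.Lp
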