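import Pool.Agent.Q296.Lp.Defs
import Pool.Agent.Q296.Seq.Basic

/-!
# Consensus times on the complete graph with four vertices
-/

namespace Q296.Lp

open MeasureTheory Finset
open scoped ENNReal

/-! ### The function `φ_p(t) = |t|^(p-2) t` -/

/-- `φ_p(t) = |t|^(p-2) t` -/
noncomputable def phi (p t : ℝ) : ℝ := |t| ^ (p - 2) * t

lemma phi_of_pos {p t : ℝ} (ht : 0 < t) : phi p t = t ^ (p - 1) := by
  unfold phi
  rw [abs_of_pos ht]
  conv_lhs => rw [← Real.rpow_one t, ← Real.rpow_mul ht.le]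
  rw [one_mul, Real.rpow_one, ← Real.rpow_add_one ht.ne']
  congr 1; ring

lemma phi_neg (p t : ℝ) : phi p (-t) = - phi p t := by
  unfold phi; rw [abs_neg]; ring

lemma phi_zero (p : ℝ) : phi p 0 = 0 := by unfold phi; simp

lemma phi_pos {p t : ℝ} (ht : 0 < t) : 0 < phi p t := by
  rw [phi_of_pos ht]; exact Real.rpow_pos_of_pos ht _

lemma phi_nonneg {p t : ℝ} (ht : 0 ≤ t) : 0 ≤ phi p t := by
  rcases ht.lt_or_eq with h | h
  · exact (phi_pos h).le
  · rw [← h, phi_zero]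

lemma phi_eq_zero {p t : ℝ} (h : phi p t = 0) : t = 0 := by
  rcases lt_trichotomy t 0 with h1 | h1 | h1
  · have := phi_pos (p := p) (neg_pos.2 h1)
    rw [phi_neg, h] at this
    simp at this
  · exact h1
  · exact absurd h (phi_pos h1).ne'

/-- in the range of interest `|φ| ≤ 1` -/
lemma neg_one_le_phi {p t : ℝ} (hp : 1 < p) (h1 : -1 ≤ t) : -1 ≤ phi p t := by
  rcases le_or_gt 0 t with h | h
  · linarith [phi_nonneg (p := p) h]
  · have h2 : 0 < -t := by linarith
    have h3 := phi_of_pos (p := p) h2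
    rw [phi_neg] at h3
    have h4 : (-t) ^ (p - 1) ≤ 1 := Real.rpow_le_one h2.le (by linarith) (by linarith)
    linarith

lemma half_lt_phi {p t δ : ℝ} (hp : 1 < p) (hδ : 0 < δ) (hδp : 1 / 2 < δ ^ (p - 1)) (h : δ ≤ t) :
    1 / 2 < phi p t := by
  rw [phi_of_pos (lt_of_lt_of_le hδ h)]
  exact lt_of_lt_of_le hδp (Real.rpow_le_rpow hδ.le h (by linarith))

/-! ### The first-order condition -/

/-- profiles with values in `[0,1]` -/
def Unit4 : Set (Fin 4 → ℝ) := {f | ∀ v, 0 ≤ f v ∧ f v ≤ 1}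

lemma energy_continuous {p : ℝ} (hp : 1 < p) (f : Fin 4 → ℝ) (v : Fin 4) :
    Continuous (energy ⊤ p f v) := by
  classical
  unfold energy
  refine continuous_finsetSum _ fun w _ => ?_
  split_ifs
  · exact (continuous_abs.comp (continuous_id.sub continuous_const)).rpow_const
      (fun _ => Or.inr (by linarith))
  · exact continuous_const

lemma argmin_spec {p : ℝ} (hp : 1 < p) {f : Fin 4 → ℝ} (hf : f ∈ Unit4) (v : Fin 4) :
    ∀ z, energy ⊤ p f v (argmin (energy ⊤ p f v)) ≤ energy ⊤ p f v z := by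
  classical
  have hex : ∃ y, ∀ z, energy ⊤ p f v y ≤ energy ⊤ p f v z := by
    obtain ⟨y, _, hy⟩ := isCompact_Icc.exists_isMinOn (Set.nonempty_Icc.2 zero_le_one)
      (energy_continuous hp f v).continuousOn
    refine ⟨y, fun z => ?_⟩
    -- project `z` to the unit interval
    have hproj : ∃ z' ∈ Set.Icc (0 : ℝ) 1, ∀ w, |z' - f w| ≤ |z - f w| := by
      rcases lt_or_ge z 0 with h | h
      · refine ⟨0, by simp, fun w => ?_⟩
        have := hf w
        rw [abs_of_nonpos (by linarith), abs_of_nonpos (by linarith)]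
        linarith
      · rcases lt_or_ge 1 z with h' | h'
        · refine ⟨1, by simp, fun w => ?_⟩
          have := hf w
          rw [abs_of_nonneg (by linarith), abs_of_nonneg (by linarith)]
          linarith
        · exact ⟨z, ⟨h, h'⟩, fun _ => le_rfl⟩
    obtain ⟨z', hz', hle⟩ := hproj
    refine (hy hz').trans ?_
    unfold energy
    refine Finset.sum_le_sum fun w _ => ?_
    split_ifs
    · exact Real.rpow_le_rpow (abs_nonneg _) (hle w) (by linarith)
    · exact le_rfl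
  exact Classical.epsilon_spec hex

lemma univ_eq {v a b c : Fin 4} (h1 : a ≠ v) (h2 : b ≠ v) (h3 : c ≠ v) (h4 : a ≠ b) (h5 : a ≠ c)
    (h6 : b ≠ c) : (univ : Finset (Fin 4)) = {v, a, b, c} := by
  revert v a b c
  decide

lemma foc {p : ℝ} (hp : 1 < p) {f : Fin 4 → ℝ} (hf : f ∈ Unit4) {v a b c : Fin 4}
    (h1 : a ≠ v) (h2 : b ≠ v) (h3 : c ≠ v) (h4 : a ≠ b) (h5 : a ≠ c) (h6 : b ≠ c) :
    phi p (argmin (energy ⊤ p f v) - f a) + phi p (argmin (energy ⊤ p f v) - f b) +
      phi p (argmin (energy ⊤ p f v) - f c) = 0 := by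
  classical
  set y := argmin (energy ⊤ p f v) with hy
  have hE : ∀ z, energy ⊤ p f v z = |z - f a| ^ p + |z - f b| ^ p + |z - f c| ^ p := by
    intro z
    unfold energy
    rw [univ_eq h1 h2 h3 h4 h5 h6]
    rw [sum_insert (by simp [h1.symm, h2.symm, h3.symm]), sum_insert (by simp [h4, h5]),
      sum_insert (by simp [h6]), sum_singleton]
    simp [h1.symm, h2.symm, h3.symm]
    ring
  have hd : ∀ x : ℝ, HasDerivAt (fun z : ℝ => |z - x| ^ p) (p * phi p (y - x)) y := by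
    intro x
    have h7 := (hasDerivAt_abs_rpow (y - x) hp).comp y ((hasDerivAt_id y).sub_const x)
    have h8 : p * |y - x| ^ (p - 2) * (y - x) * 1 = p * phi p (y - x) := by
      unfold phi; ring
    rw [h8] at h7
    exact h7
  have hD : HasDerivAt (energy ⊤ p f v)
      (p * phi p (y - f a) + p * phi p (y - f b) + p * phi p (y - f c)) y := by
    have h7 := ((hd (f a)).add (hd (f b))).add (hd (f c))
    have h8 : energy ⊤ p f v = fun z => |z - f a| ^ p + |z - f b| ^ p + |z - f c| ^ p :=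
      funext hE
    rw [h8]
    exact h7
  have hmin : IsLocalMin (energy ⊤ p f v) y :=
    Filter.Eventually.of_forall (fun z => argmin_spec hp hf v z)
  have h0 := hmin.hasDerivAt_eq_zero hD
  have hp0 : p ≠ 0 := by linarith
  have : p * (phi p (y - f a) + phi p (y - f b) + phi p (y - f c)) = 0 := by linarith
  exact (mul_eq_zero.1 this).resolve_left hp0

/-- each vertex has three others -/
lemma others (v : Fin 4) : ∃ a b c : Fin 4, a ≠ v ∧ b ≠ v ∧ c ≠ v ∧ a ≠ b ∧ a ≠ c ∧ b ≠ c := by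
  revert v; decide

/-- if all the neighbours are `≤ u`, so is the new value -/
lemma argmin_le {p : ℝ} (hp : 1 < p) {f : Fin 4 → ℝ} (hf : f ∈ Unit4) {v : Fin 4} {u : ℝ}
    (h : ∀ w, w ≠ v → f w ≤ u) : argmin (energy ⊤ p f v) ≤ u := by
  obtain ⟨a, b, c, h1, h2, h3, h4, h5, h6⟩ := others v
  have hfoc := foc hp hf h1 h2 h3 h4 h5 h6
  by_contra hcon
  push Not at hcon
  have ha := phi_pos (p := p) (t := argmin (energy ⊤ p f v) - f a) (by linarith [h a h1])
  have hb := phi_pos (p := p) (t := argmin (energy ⊤ p f v) - f b) (by linarith [h b h2])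
  have hc := phi_pos (p := p) (t := argmin (energy ⊤ p f v) - f c) (by linarith [h c h3])
  linarith

lemma le_argmin {p : ℝ} (hp : 1 < p) {f : Fin 4 → ℝ} (hf : f ∈ Unit4) {v : Fin 4} {u : ℝ}
    (h : ∀ w, w ≠ v → u ≤ f w) : u ≤ argmin (energy ⊤ p f v) := by
  obtain ⟨a, b, c, h1, h2, h3, h4, h5, h6⟩ := others v
  have hfoc := foc hp hf h1 h2 h3 h4 h5 h6
  by_contra hcon
  push Not at hcon
  have ha := phi_pos (p := p) (t := -(argmin (energy ⊤ p f v) - f a)) (by linarith [h a h1])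
  have hb := phi_pos (p := p) (t := -(argmin (energy ⊤ p f v) - f b)) (by linarith [h b h2])
  have hc := phi_pos (p := p) (t := -(argmin (energy ⊤ p f v) - f c)) (by linarith [h c h3])
  rw [phi_neg] at ha hb hc
  linarith

lemma upd_mem {p : ℝ} (hp : 1 < p) {f : Fin 4 → ℝ} (hf : f ∈ Unit4) (v : Fin 4) :
    upd ⊤ p f v ∈ Unit4 := by
  intro w
  unfold upd
  by_cases hw : w = v
  · subst hw
    rw [Function.update_self]
    exact ⟨le_argmin hp hf (fun w _ => (hf w).1), argmin_le hp hf (fun w _ => (hf w).2)⟩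
  · rw [Function.update_of_ne hw]; exact hf w

/-! ### Lower bound: exact consensus is never reached -/

/-- the profile is not constant on the complement of any vertex -/
def Robust (f : Fin 4 → ℝ) : Prop := ∀ u, ∃ a b, a ≠ u ∧ b ≠ u ∧ f a ≠ f b

lemma three (u v : Fin 4) (h : u ≠ v) : ∃ a b : Fin 4, a ≠ v ∧ b ≠ v ∧ a ≠ b ∧ a ≠ u ∧ b ≠ u ∧
    ∀ w, w = u ∨ w = v ∨ w = a ∨ w = b := by
  revert u v; decide

lemma robust_upd {p : ℝ} (hp : 1 < p) {f : Fin 4 → ℝ} (hf : f ∈ Unit4) (hR : Robust f)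
    (v : Fin 4) : Robust (upd ⊤ p f v) := by
  intro u
  by_cases huv : u = v
  · subst huv
    obtain ⟨a, b, ha, hb, hab⟩ := hR u
    refine ⟨a, b, ha, hb, ?_⟩
    unfold Lp.upd
    rwa [Function.update_of_ne ha, Function.update_of_ne hb]
  · obtain ⟨a, b, ha, hb, hab, hau, hbu, hall⟩ := three u v huv
    by_contra hcon
    push Not at hcon
    -- all values off `u` are equal
    set y := argmin (energy ⊤ p f v) with hy
    have e1 : upd ⊤ p f v v = y := by unfold Lp.upd; rw [Function.update_self]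
    have e2 : upd ⊤ p f v a = f a := by unfold Lp.upd; rw [Function.update_of_ne ha]
    have e3 : upd ⊤ p f v b = f b := by unfold Lp.upd; rw [Function.update_of_ne hb]
    have h1 : f a = y := by
      have := hcon a v hau (fun h => huv h.symm)
      rw [e1, e2] at this; exact this
    have h2 : f b = y := by
      have := hcon b v hbu (fun h => huv h.symm)
      rw [e1, e3] at this; exact this
    have hfoc := foc hp hf ha hb huv hab hau hbu
    rw [← hy, h1, h2, sub_self, phi_zero] at hfoc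
    have h3 : y - f u = 0 := phi_eq_zero (p := p) (by linarith)
    obtain ⟨c, d, hc, hd, hcd⟩ := hR v
    have hval : ∀ w, w ≠ v → f w = y := by
      intro w hw
      rcases hall w with h | h | h | h
      · rw [h]; linarith
      · exact absurd h hw
      · rw [h]; exact h1
      · rw [h]; exact h2
    exact hcd ((hval c hc).trans (hval d hd).symm)

lemma Robust.osc_pos {f : Fin 4 → ℝ} (hR : Robust f) : 0 < osc f := by
  obtain ⟨a, b, _, _, hab⟩ := hR 0
  unfold osc
  have hbdd : BddAbove (Set.range f) := (Set.finite_range f).bddAbove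
  have hbdd' : BddBelow (Set.range f) := (Set.finite_range f).bddBelow
  rcases lt_or_gt_of_ne hab with h | h
  · have h1 := le_ciSup hbdd b
    have h2 := ciInf_le hbdd' a
    linarith
  · have h1 := le_ciSup hbdd a
    have h2 := ciInf_le hbdd' b
    linarith

/-- the initial profile: one at the vertex `0`, zero elsewhere -/
def init : Fin 4 → ℝ := fun v => if v = 0 then 1 else 0

lemma init_mem : init ∈ Unit4 := by
  intro v; unfold init; split_ifs <;> norm_num

lemma init_upd_robust {p : ℝ} (hp : 1 < p) (v : Fin 4) (hv : v ≠ 0) :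
    Robust (upd ⊤ p init v) := by
  obtain ⟨a, b, ha, hb, hab, ha0, hb0, hall⟩ := three 0 v hv.symm
  set y := argmin (energy ⊤ p init v) with hy
  have hfoc := foc hp init_mem ha hb hv.symm hab ha0 hb0
  rw [← hy] at hfoc
  have i0 : init 0 = 1 := by unfold init; simp
  have ia : init a = 0 := by unfold init; simp [ha0]
  have ib : init b = 0 := by unfold init; simp [hb0]
  rw [i0, ia, ib, sub_zero] at hfoc
  have hy0 : y ≠ 0 := by
    intro h
    rw [h, phi_zero] at hfoc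
    have := phi_eq_zero (p := p) (t := 0 - 1) (by linarith)
    norm_num at this
  have e1 : upd ⊤ p init v v = y := by unfold Lp.upd; rw [Function.update_self]
  have e2 : upd ⊤ p init v a = 0 := by unfold Lp.upd; rw [Function.update_of_ne ha, ia]
  have e3 : upd ⊤ p init v b = 0 := by unfold Lp.upd; rw [Function.update_of_ne hb, ib]
  have e4 : upd ⊤ p init v 0 = 1 := by unfold Lp.upd; rw [Function.update_of_ne hv.symm, i0]
  intro u
  rcases hall u with h | h | h | h
  · -- u = 0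
    refine ⟨v, a, ?_, ?_, ?_⟩
    · rw [h]; exact hv
    · rw [h]; exact ha0
    · rw [e1, e2]; exact hy0
  · refine ⟨0, a, ?_, ?_, ?_⟩
    · rw [h]; exact hv.symm
    · rw [h]; exact ha
    · rw [e4, e2]; norm_num
  · refine ⟨0, b, ?_, ?_, ?_⟩
    · rw [h]; exact ha0.symm
    · rw [h]; exact hab.symm
    · rw [e4, e3]; norm_num
  · refine ⟨0, a, ?_, ?_, ?_⟩
    · rw [h]; exact hb0.symm
    · rw [h]; exact hab
    · rw [e4, e2]; norm_num

lemma state_robust {p : ℝ} (hp : 1 < p) {ω : ℕ → Fin 4} (hω : ω 0 ≠ 0) (t : ℕ) :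
    Seq.state (upd ⊤ p) init ω (t + 1) ∈ Unit4 ∧ Robust (Seq.state (upd ⊤ p) init ω (t + 1)) := by
  induction t with
  | zero => exact ⟨upd_mem hp init_mem _, init_upd_robust hp _ hω⟩
  | succ t ih =>
    rw [Seq.state]
    exact ⟨upd_mem hp ih.1 _, robust_upd hp ih.1 ih.2 _⟩

lemma osc_init : 0 < osc init := by
  unfold osc
  have hbdd : BddAbove (Set.range init) := (Set.finite_range _).bddAbove
  have hbdd' : BddBelow (Set.range init) := (Set.finite_range _).bddBelow
  have h1 := le_ciSup hbdd 0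
  have h2 := ciInf_le hbdd' 1
  have i0 : init 0 = 1 := by unfold init; simp
  have i1 : init 1 = 0 := by unfold init; simp
  linarith

lemma state_osc_pos {p : ℝ} (hp : 1 < p) {ω : ℕ → Fin 4} (hω : ω 0 ≠ 0) (t : ℕ) :
    0 < osc (Seq.state (upd ⊤ p) init ω t) := by
  cases t with
  | zero => exact osc_init
  | succ t => exact (state_robust hp hω t).2.osc_pos

/-- a uniform positive lower bound for the oscillation up to time `T` -/
lemma exists_eps {p : ℝ} (hp : 1 < p) (T : ℕ) : ∃ ε : ℝ, 0 < ε ∧ ε ≤ 1 ∧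
    ∀ ω : ℕ → Fin 4, ω 0 ≠ 0 → ∀ t < T, ε < osc (Seq.state (upd ⊤ p) init ω t) := by
  set ext : (Fin T → Fin 4) → (ℕ → Fin 4) := fun v i => if h : i < T then v ⟨i, h⟩ else 0 with hext
  set R : Finset ℝ := (univ : Finset ((Fin T → Fin 4) × Fin T)).image
    (fun x => osc (Seq.state (upd ⊤ p) init (ext x.1) x.2.val)) with hR
  set R' := insert 1 (R.filter (fun x => 0 < x)) with hR'
  have hne : R'.Nonempty := insert_nonempty _ _
  have hmin := R'.min'_mem hne
  have hpos : 0 < R'.min' hne := by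
    rcases mem_insert.1 hmin with h | h
    · rw [h]; norm_num
    · exact (mem_filter.1 h).2
  have hle1 : R'.min' hne ≤ 1 := min'_le _ _ (mem_insert_self _ _)
  refine ⟨R'.min' hne / 2, by linarith, by linarith, ?_⟩
  intro ω hω t ht
  have hpos' := state_osc_pos hp hω t
  have hmem : osc (Seq.state (upd ⊤ p) init ω t) ∈ R' := by
    refine mem_insert_of_mem (mem_filter.2 ⟨?_, hpos'⟩)
    rw [hR, mem_image]
    refine ⟨(fun i => ω i.val, ⟨t, ht⟩), mem_univ _, ?_⟩
    simp only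
    rw [Seq.state_congr (upd ⊤ p) init (ω := ext fun i => ω i.val) (ω' := ω)]
    intro i hi
    simp only [hext]
    rw [dif_pos (by omega)]
  have := min'_le _ _ hmem
  linarith

lemma unif_compl : (PMF.uniformOfFintype (Fin 4)).toMeasure {v | v ≠ 0} = 3 / 4 := by
  rw [PMF.toMeasure_uniformOfFintype_apply _ (by exact (Set.to_countable _).measurableSet)]
  have : Fintype.card {v : Fin 4 | v ≠ 0} = 3 := by decide
  rw [this, Fintype.card_fin]
  rfl

/-! ### Upper bound for `p` near `1` -/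

/-- if two of the neighbours are `≤ u` the new value is at most `u + δ` -/
lemma argmin_le_add {p δ : ℝ} (hp : 1 < p) (hδ : 0 < δ) (hδp : 1 / 2 < δ ^ (p - 1))
    {f : Fin 4 → ℝ} (hf : f ∈ Unit4) {v a b c : Fin 4}
    (h1 : a ≠ v) (h2 : b ≠ v) (h3 : c ≠ v) (h4 : a ≠ b) (h5 : a ≠ c) (h6 : b ≠ c) {u : ℝ}
    (ha : f a ≤ u) (hb : f b ≤ u) : argmin (energy ⊤ p f v) ≤ u + δ := by
  have hfoc := foc hp hf h1 h2 h3 h4 h5 h6
  by_contra hcon
  push Not at hcon
  have h7 := half_lt_phi (t := argmin (energy ⊤ p f v) - f a) hp hδ hδp (by linarith)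
  have h8 := half_lt_phi (t := argmin (energy ⊤ p f v) - f b) hp hδ hδp (by linarith)
  have h9 : 0 ≤ argmin (energy ⊤ p f v) := le_argmin hp hf (fun w _ => (hf w).1)
  have h10 := neg_one_le_phi (t := argmin (energy ⊤ p f v) - f c) hp (by linarith [(hf c).2])
  linarith

lemma sub_le_argmin {p δ : ℝ} (hp : 1 < p) (hδ : 0 < δ) (hδp : 1 / 2 < δ ^ (p - 1))
    {f : Fin 4 → ℝ} (hf : f ∈ Unit4) {v a b c : Fin 4}
    (h1 : a ≠ v) (h2 : b ≠ v) (h3 : c ≠ v) (h4 : a ≠ b) (h5 : a ≠ c) (h6 : b ≠ c) {u : ℝ}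
    (ha : u ≤ f a) (hb : u ≤ f b) : u - δ ≤ argmin (energy ⊤ p f v) := by
  have hfoc := foc hp hf h1 h2 h3 h4 h5 h6
  by_contra hcon
  push Not at hcon
  have h7 := half_lt_phi (t := -(argmin (energy ⊤ p f v) - f a)) hp hδ hδp (by linarith)
  have h8 := half_lt_phi (t := -(argmin (energy ⊤ p f v) - f b)) hp hδ hδp (by linarith)
  have h9 : argmin (energy ⊤ p f v) ≤ 1 := argmin_le hp hf (fun w _ => (hf w).2)
  have h10 := neg_one_le_phi (t := -(argmin (energy ⊤ p f v) - f c)) hp (by linarith [(hf c).1])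
  rw [phi_neg] at h7 h8 h10
  linarith

/-- the vertices can be listed in increasing order of the profile -/
lemma exists_sorted (f : Fin 4 → ℝ) : ∃ v1 v2 v3 v4 : Fin 4, v1 ≠ v2 ∧ v1 ≠ v3 ∧ v1 ≠ v4 ∧
    v2 ≠ v3 ∧ v2 ≠ v4 ∧ v3 ≠ v4 ∧ f v1 ≤ f v2 ∧ f v2 ≤ f v3 ∧ f v3 ≤ f v4 := by
  set σ := Tuple.sort f with hσ
  have hm := Tuple.monotone_sort f
  refine ⟨σ 0, σ 1, σ 2, σ 3, ?_, ?_, ?_, ?_, ?_, ?_, ?_, ?_, ?_⟩
  · exact σ.injective.ne (by decide)
  · exact σ.injective.ne (by decide)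
  · exact σ.injective.ne (by decide)
  · exact σ.injective.ne (by decide)
  · exact σ.injective.ne (by decide)
  · exact σ.injective.ne (by decide)
  · exact hm (by decide)
  · exact hm (by decide)
  · exact hm (by decide)

lemma osc_le_of {f : Fin 4 → ℝ} {l u : ℝ} (h : ∀ v, l ≤ f v ∧ f v ≤ u) : osc f ≤ u - l := by
  unfold osc
  have h1 : ⨆ v, f v ≤ u := ciSup_le fun v => (h v).2
  have h2 : l ≤ ⨅ v, f v := le_ciInf fun v => (h v).1
  linarith

/-- three updates bring the oscillation below `4 δ` -/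
lemma three_updates {p δ : ℝ} (hp : 1 < p) (hδ : 0 < δ) (hδp : 1 / 2 < δ ^ (p - 1))
    {f : Fin 4 → ℝ} (hf : f ∈ Unit4) :
    ∃ v1 v2 v3 : Fin 4, osc (upd ⊤ p (upd ⊤ p (upd ⊤ p f v1) v2) v3) ≤ 4 * δ := by
  obtain ⟨v1, v2, v3, v4, h12, h13, h14, h23, h24, h34, f12, f23, f34⟩ := exists_sorted f
  refine ⟨v1, v2, v4, ?_⟩
  set c := f v3 with hc
  set g1 := upd ⊤ p f v1 with hg1
  have hg1m : g1 ∈ Unit4 := upd_mem hp hf v1
  have g11 : g1 v1 = argmin (energy ⊤ p f v1) := by rw [hg1]; unfold Lp.upd; simp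
  have g12 : g1 v2 = f v2 := by rw [hg1]; unfold Lp.upd; rw [Function.update_of_ne h12.symm]
  have g13 : g1 v3 = f v3 := by rw [hg1]; unfold Lp.upd; rw [Function.update_of_ne h13.symm]
  have g14 : g1 v4 = f v4 := by rw [hg1]; unfold Lp.upd; rw [Function.update_of_ne h14.symm]
  have b1u : g1 v1 ≤ c + δ := by
    rw [g11]
    exact argmin_le_add hp hδ hδp hf h12.symm h13.symm h14.symm h23 h24 h34 f23 le_rfl
  have b1l : c - δ ≤ g1 v1 := by
    rw [g11]
    exact sub_le_argmin hp hδ hδp hf h13.symm h14.symm h12.symm h34 h23.symm h24.symm le_rfl f34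
  set g2 := upd ⊤ p g1 v2 with hg2
  have hg2m : g2 ∈ Unit4 := upd_mem hp hg1m v2
  have g21 : g2 v1 = g1 v1 := by rw [hg2]; unfold Lp.upd; rw [Function.update_of_ne h12]
  have g22 : g2 v2 = argmin (energy ⊤ p g1 v2) := by rw [hg2]; unfold Lp.upd; simp
  have g23 : g2 v3 = c := by
    rw [hg2]; unfold Lp.upd; rw [Function.update_of_ne h23.symm, g13]
  have b2u : g2 v2 ≤ c + δ + δ := by
    rw [g22]
    exact argmin_le_add hp hδ hδp hg1m h12 h23.symm h24.symm h13 h14 h34 b1u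
      (by rw [g13]; linarith)
  have b2l : c - δ - δ ≤ g2 v2 := by
    rw [g22]
    exact sub_le_argmin hp hδ hδp hg1m h12 h23.symm h24.symm h13 h14 h34 b1l
      (by rw [g13]; linarith)
  set g3 := upd ⊤ p g2 v4 with hg3
  have g31 : g3 v1 = g2 v1 := by rw [hg3]; unfold Lp.upd; rw [Function.update_of_ne h14]
  have g32 : g3 v2 = g2 v2 := by rw [hg3]; unfold Lp.upd; rw [Function.update_of_ne h24]
  have g33 : g3 v3 = g2 v3 := by rw [hg3]; unfold Lp.upd; rw [Function.update_of_ne h34]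
  have g34 : g3 v4 = argmin (energy ⊤ p g2 v4) := by rw [hg3]; unfold Lp.upd; simp
  have hall : ∀ w, w = v1 ∨ w = v2 ∨ w = v3 ∨ w = v4 := by
    intro w
    have hw : w ∈ (univ : Finset (Fin 4)) := mem_univ w
    rw [univ_eq h14 h24 h34 h12 h13 h23] at hw
    simp only [mem_insert, mem_singleton] at hw
    tauto
  have hoff : ∀ w, w ≠ v4 → c - 2 * δ ≤ g2 w ∧ g2 w ≤ c + 2 * δ := by
    intro w hw
    rcases hall w with h | h | h | h
    · rw [h, g21]; constructor <;> linarith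
    · rw [h]; constructor <;> linarith
    · rw [h, g23]; constructor <;> linarith
    · exact absurd h hw
  have b4u : g3 v4 ≤ c + 2 * δ := by
    rw [g34]; exact argmin_le hp hg2m (fun w hw => (hoff w hw).2)
  have b4l : c - 2 * δ ≤ g3 v4 := by
    rw [g34]; exact le_argmin hp hg2m (fun w hw => (hoff w hw).1)
  have hfin : ∀ w, c - 2 * δ ≤ g3 w ∧ g3 w ≤ c + 2 * δ := by
    intro w
    rcases hall w with h | h | h | h
    · rw [h, g31]; exact hoff v1 h14
    · rw [h, g32]; exact hoff v2 h24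
    · rw [h, g33]; exact hoff v3 h34
    · rw [h]; exact ⟨b4l, b4u⟩
  have := osc_le_of hfin
  linarith

lemma exists_p {δ p₂ : ℝ} (hδ : 0 < δ) (hp₂ : 1 < p₂) :
    ∃ p₁, 1 < p₁ ∧ p₁ < p₂ ∧ 1 / 2 < δ ^ (p₁ - 1) := by
  have hcont : ContinuousAt (fun q : ℝ => δ ^ (q - 1)) 1 :=
    ((Real.continuous_const_rpow hδ.ne').comp (continuous_id.sub continuous_const)).continuousAt
  have h1 : (1 : ℝ) / 2 < δ ^ ((1 : ℝ) - 1) := by
    rw [sub_self, Real.rpow_zero]; norm_num
  have h2 : ∀ᶠ q : ℝ in nhds 1, 1 / 2 < δ ^ (q - 1) := hcont.eventually (lt_mem_nhds h1)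
  have h3 : ∀ᶠ q : ℝ in nhdsWithin 1 (Set.Ioi 1), 1 / 2 < δ ^ (q - 1) :=
    h2.filter_mono nhdsWithin_le_nhds
  have h4 : ∀ᶠ q : ℝ in nhdsWithin 1 (Set.Ioi 1), q ∈ Set.Ioo 1 p₂ :=
    Ioo_mem_nhdsGT hp₂
  obtain ⟨q, hq1, hq2⟩ := (h3.and h4).exists
  exact ⟨q, hq2.1, hq2.2, hq1⟩

lemma surv_three {p δ : ℝ} (hp : 1 < p) (hδ : 0 < δ) (hδp : 1 / 2 < δ ^ (p - 1))
    {f : Fin 4 → ℝ} (hf : f ∈ Unit4) :
    Seq.iid (PMF.uniformOfFintype (Fin 4)).toMeasure
      (Seq.surv (upd ⊤ p) {f | osc f ≤ 4 * δ} f 3) ≤ 63 / 64 := by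
  obtain ⟨v1, v2, v3, h⟩ := three_updates hp hδ hδp hf
  set ν : Measure (Fin 4) := (PMF.uniformOfFintype (Fin 4)).toMeasure with hν
  have hsing : ∀ v : Fin 4, ν {v} = 1 / 4 := by
    intro v
    rw [hν, PMF.toMeasure_uniformOfFintype_apply _ (measurableSet_singleton v)]
    simp
  set t : ℕ → Set (Fin 4) := fun i => if i = 0 then {v1} else if i = 1 then {v2} else {v3} with ht
  set B : Set (ℕ → Fin 4) := Set.pi ((range 3 : Finset ℕ) : Set ℕ) t with hB
  have hmt : ∀ i, MeasurableSet (t i) := fun i => (Set.to_countable _).measurableSet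
  have hBm : MeasurableSet B :=
    MeasurableSet.pi (Finset.countable_toSet _) (fun i _ => hmt i)
  have hμB : Seq.iid ν B = 1 / 64 := by
    rw [hB, Seq.iid, Measure.infinitePi_pi _ (fun i _ => hmt i)]
    have hti : ∀ i, ν (t i) = 1 / 4 := by
      intro i
      simp only [ht]
      split_ifs <;> exact hsing _
    simp only [hti, prod_const, card_range]
    rw [one_div, ← ENNReal.inv_pow, one_div]
    norm_num
  have hsub : Seq.surv (upd ⊤ p) {f | osc f ≤ 4 * δ} f 3 ⊆ Bᶜ := by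
    intro ω hω hωB
    have h0 : ω 0 = v1 := by
      have := hωB 0 (by simp)
      simpa [ht] using this
    have h1 : ω 1 = v2 := by
      have := hωB 1 (by simp)
      simpa [ht] using this
    have h2 : ω 2 = v3 := by
      have := hωB 2 (by simp)
      simpa [ht] using this
    refine hω 3 le_rfl ?_
    have : Seq.state (upd ⊤ p) f ω 3 = upd ⊤ p (upd ⊤ p (upd ⊤ p f v1) v2) v3 := by
      rw [← h0, ← h1, ← h2]; rfl
    rw [this]
    exact h
  refine (measure_mono hsub).trans ?_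
  rw [measure_compl hBm (measure_ne_top _ _), measure_univ, hμB]
  refine le_of_eq ?_
  rw [ENNReal.sub_eq_of_eq_add (by norm_num)]
  rw [ENNReal.div_add_div_same]
  norm_num
  exact (ENNReal.div_self (by norm_num) (by norm_num)).symm

theorem upper {p δ : ℝ} (hp : 1 < p) (hδ : 0 < δ) (hδp : 1 / 2 < δ ^ (p - 1)) :
    meanConsensus ⊤ p init (4 * δ) ≤ 192 := by
  unfold meanConsensus
  refine (Seq.meanHit_le _ (upd ⊤ p) {f | osc f ≤ 4 * δ} Unit4
    (fun s hs e => upd_mem hp hs e) 3 (by norm_num) (63 / 64)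
    (fun s hs => surv_three hp hδ hδp hs) init init_mem).trans ?_
  have h1 : (1 : ℝ≥0∞) - 63 / 64 = 1 / 64 := by
    rw [ENNReal.sub_eq_of_eq_add (by exact ENNReal.div_ne_top (by norm_num) (by norm_num))]
    rw [ENNReal.div_add_div_same]
    norm_num
    exact (ENNReal.div_self (by norm_num) (by norm_num)).symm
  rw [h1, one_div, inv_inv]
  norm_num

theorem lower {p : ℝ} (hp : 1 < p) (C : ℕ) : ∃ ε₀ : ℝ, 0 < ε₀ ∧ ε₀ ≤ 1 ∧
    ∀ ε ≤ ε₀, (C : ℝ≥0∞) < meanConsensus ⊤ p init ε := by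
  set T : ℕ := 2 * C + 2 with hT
  obtain ⟨ε₀, hε, hε1, h⟩ := exists_eps hp T
  refine ⟨ε₀, hε, hε1, fun ε hle => ?_⟩
  unfold meanConsensus
  set ν : Measure (Fin 4) := (PMF.uniformOfFintype (Fin 4)).toMeasure with hν
  have hBm : MeasurableSet {v : Fin 4 | v ≠ 0} := (Set.to_countable _).measurableSet
  have hm : MeasurableSet {ω : ℕ → Fin 4 | ω 0 ∈ {v : Fin 4 | v ≠ 0}} :=
    (measurable_pi_apply 0) hBm
  have h1 := Seq.le_meanHit ν (upd ⊤ p) {f | osc f ≤ ε} init
    {ω | ω 0 ∈ {v : Fin 4 | v ≠ 0}} hm T (by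
      intro ω hω t ht hmem
      have h2 := h ω hω t ht
      have h3 : osc (Seq.state (upd ⊤ p) init ω t) ≤ ε := hmem
      linarith)
  rw [Seq.iid_first ν hBm 0, hν, unif_compl] at h1
  refine lt_of_lt_of_le ?_ h1
  rw [hT]
  have h4 : (C : ℝ≥0∞) < ((2 * C + 2 : ℕ) : ℝ≥0∞) * (3 / 4) := by
    have h5 : ((2 * C + 2 : ℕ) : ℝ≥0∞) * (3 / 4) = ENNReal.ofReal ((2 * C + 2) * (3 / 4)) := by
      rw [ENNReal.ofReal_mul (by positivity), ENNReal.ofReal_div_of_pos (by norm_num)]
      congr 1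
      · rw [← ENNReal.ofReal_natCast]; push_cast; rfl
      · simp
    rw [h5, ← ENNReal.ofReal_natCast]
    refine (ENNReal.ofReal_lt_ofReal_iff (by positivity)).2 ?_
    have : (0 : ℝ) ≤ C := Nat.cast_nonneg _
    linarith
  exact h4

theorem main {p₂ : ℝ} (hp₂ : 1 < p₂) (C : ℕ) :
    ∃ ε p₁ : ℝ, 0 < ε ∧ 1 < p₁ ∧ p₁ < p₂ ∧
      meanConsensus ⊤ p₁ init ε ≤ 192 ∧ (C : ℝ≥0∞) < meanConsensus ⊤ p₂ init ε := by
  obtain ⟨ε₀, hε, hε1, h⟩ := lower hp₂ C
  obtain ⟨p₁, h1, h2, h3⟩ := exists_p (δ := ε₀ / 4) (by linarith) hp₂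
  refine ⟨ε₀, p₁, hε, h1, h2, ?_, h ε₀ le_rfl⟩
  have := upper h1 (show (0 : ℝ) < ε₀ / 4 by linarith) h3
  have e : 4 * (ε₀ / 4) = ε₀ := by ring
  rwa [e] at this

end Q296.Lp
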